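import Pool.Agent.H64.EP.Targets

/-!
# Board ep_modules (MP_e01ba1_co), module `GI`
-/

set_option autoImplicit false

open Finset
open scoped Classical

namespace Pool.Agent.H33.EP.GI

open Pool.Agent.H64.EP

theorem avg_equiv {A B : Type} [Fintype A] [Fintype B] (v : A ≃ B) (f : B → ℝ) :
    avg (fun a => f (v a)) = avg f := by
  unfold avg
  rw [Equiv.sum_comp v f, Fintype.card_congr v]

/-- transport -/
theorem HI_equiv {ι A B : Type} [Fintype ι] [Fintype A] [Fintype B] (v : A ≃ B) (r : ℕ)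
    (K : ι → B → B → ℝ) (h : HI r K) : HI r (fun i a a' => K i (v a) (v a')) := by
  intro φ hφ
  have h1 := h (fun i b => φ i (v.symm b)) (fun i b => hφ i (v.symm b))
  have h2 : ∀ z : A, Real.exp (r * ∑ i, ∑ x, K i (v z) (v x) * φ i x) =
      (fun w => Real.exp (r * ∑ i, ∑ y, K i w y * φ i (v.symm y))) (v z) := by
    intro z
    have h3 : ∀ i, ∑ x, K i (v z) (v x) * φ i x = ∑ y, K i (v z) y * φ i (v.symm y) := by
      intro i
      rw [← Equiv.sum_comp v (fun y => K i (v z) y * φ i (v.symm y))]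
      refine sum_congr rfl (fun x _ => ?_)
      rw [Equiv.symm_apply_apply]
    simp only [h3]
  have h4 : ∀ i, avg (fun x => Real.exp (φ i x)) =
      avg (fun b => Real.exp (φ i (v.symm b))) := by
    intro i
    rw [← avg_equiv v (fun b => Real.exp (φ i (v.symm b)))]
    simp only [Equiv.symm_apply_apply]
  have h5 : avg (fun z => Real.exp (r * ∑ i, ∑ x, K i (v z) (v x) * φ i x)) =
      avg (fun w => Real.exp (r * ∑ i, ∑ y, K i w y * φ i (v.symm y))) := by
    rw [← avg_equiv v (fun w => Real.exp (r * ∑ i, ∑ y, K i w y * φ i (v.symm y)))]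
    simp only [h2]
  rw [h5]
  simp only [h4]
  exact h1

theorem isKer_prod {ι E α : Type} [Fintype E] [DecidableEq E] [Fintype α]
    (K : E → ι → α → α → ℝ) (h : ∀ e, IsKer (K e)) :
    IsKer (fun i (z x : E → α) => ∏ e, K e i (z e) (x e)) := by
  refine ⟨fun i z x => prod_nonneg (fun e _ => (h e).1 i (z e) (x e)), fun i z => ?_⟩
  have h1 : ∑ x : E → α, ∏ e, K e i (z e) (x e) = ∏ e, ∑ a, K e i (z e) a := by
    rw [prod_univ_sum, Fintype.piFinset_univ]
  rw [h1]
  exact prod_eq_one (fun e _ => (h e).2 i (z e))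

theorem GI_fin (hP : T_PAIR) (ι α : Type) [Fintype ι] [Fintype α] [Nonempty α] (r : ℕ)
    (hr : 1 ≤ r) (n : ℕ) : ∀ K : Fin n → ι → α → α → ℝ, (∀ e, IsKer (K e)) →
    (∀ e, HI r (K e)) → HI r (fun i (z x : Fin n → α) => ∏ e, K e i (z e) (x e)) := by
  induction n with
  | zero =>
    intro K _ _ φ _
    have h1 : ∀ f : (Fin 0 → α) → ℝ, avg f = f default := by
      intro f
      unfold avg
      rw [Fintype.sum_unique, Fintype.card_unique, Nat.cast_one, div_one]
    rw [h1]
    simp only [h1]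
    rw [← Real.exp_sum, ← Real.exp_nat_mul]
    simp only [Fintype.sum_unique, Finset.univ_eq_empty, Finset.prod_empty, one_mul]
    exact le_rfl
  | succ n ih =>
    intro K hK hH
    have hk : IsKer (fun i (z x : Fin n → α) => ∏ e : Fin n, K e.succ i (z e) (x e)) :=
      isKer_prod (fun e : Fin n => K e.succ) (fun e => hK e.succ)
    have hh : HI r (fun i (z x : Fin n → α) => ∏ e : Fin n, K e.succ i (z e) (x e)) :=
      ih (fun e : Fin n => K e.succ) (fun e => hK e.succ) (fun e => hH e.succ)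
    have hpair := hP ι α (Fin n → α) r (K 0) _ hr (hK 0) hk (hH 0) hh
    let v : (Fin (n + 1) → α) ≃ α × (Fin n → α) := (Fin.consEquiv (fun _ => α)).symm
    have hv1 : ∀ z, (v z).1 = z 0 := fun z => rfl
    have hv2 : ∀ z (e : Fin n), (v z).2 e = z e.succ := fun z e => rfl
    have h2 := HI_equiv v r _ hpair
    have h3 : (fun i (z x : Fin (n + 1) → α) => ∏ e, K e i (z e) (x e)) =
        fun i (a a' : Fin (n + 1) → α) => K 0 i (v a).1 (v a').1 *
          ∏ e : Fin n, K e.succ i ((v a).2 e) ((v a').2 e) := by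
      funext i z x
      rw [Fin.prod_univ_succ]
      simp only [hv1, hv2]
    rw [h3]
    exact h2

theorem pf_GI (hP : T_PAIR) : T_GI := by
  intro ι E α _ _ _ _ _ r K hr hK hH
  let u : E ≃ Fin (Fintype.card E) := Fintype.equivFin E
  have h1 := GI_fin hP ι α r hr (Fintype.card E) (fun e => K (u.symm e))
    (fun e => hK _) (fun e => hH _)
  let v : (E → α) ≃ (Fin (Fintype.card E) → α) := Equiv.arrowCongr u (Equiv.refl α)
  have hv : ∀ (z : E → α) (e : Fin (Fintype.card E)), v z e = z (u.symm e) := fun z e => rfl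
  have h2 := HI_equiv v r _ h1
  have h3 : (fun i (z x : E → α) => ∏ e, K e i (z e) (x e)) =
      fun i (a a' : E → α) => ∏ e, K (u.symm e) i (v a e) (v a' e) := by
    funext i z x
    simp only [hv]
    rw [Equiv.prod_comp u.symm (fun e => K e i (z e) (x e))]
  rw [h3]
  exact h2

end Pool.Agent.H33.EP.GI
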