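import Pool.Agent.H64.EP.Targets

/-!
# Board ep_modules (MP_e01ba1_co), module `KER`
-/

set_option autoImplicit false

open Finset
open scoped Classical

namespace Pool.Agent.H33.EP.KER

open Pool.Agent.H64.EP

theorem cnt_pos {k L R : ℕ} (hL : 1 ≤ L) (hR : 2 ≤ R) (i j : Fin k) (e : Sym2 (Fin k)) :
    0 < cnt L R i j e := by
  have h1 : (0 : ℝ) < L := by exact_mod_cast hL
  have h2 : (2 : ℝ) ≤ R := by exact_mod_cast hR
  have h3 : (0 : ℝ) < (R : ℝ) - 1 := by linarith
  have h4 : (0 : ℝ) < R := by linarith
  unfold cnt
  split_ifs <;> positivity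

theorem pf_KER (hC : T_CNT) : T_KER := by
  intro k L R hL hR j e
  have h1 : (0 : ℝ) < L := by exact_mod_cast hL
  have h2 : (0 : ℝ) < R := by exact_mod_cast (by omega : 0 < R)
  refine ⟨?_, ?_⟩
  · intro i z x
    simp only [ker]
    split_ifs
    · positivity
    · exact div_nonneg zero_le_one (cnt_pos hL hR i j e).le
    · exact div_nonneg le_rfl (cnt_pos hL hR i j e).le
  · intro i z
    by_cases hij : i = j
    · have h3 : ∀ x : W L R, ker j e i z x = 1 / ((L : ℝ) * R * R ^ L) := by
        intro x
        unfold ker
        rw [if_pos hij]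
      rw [sum_congr rfl (fun x _ => h3 x), sum_const, card_univ, nsmul_eq_mul]
      have h4 : (Fintype.card (W L R) : ℝ) = (L : ℝ) * R * R ^ L := by
        rw [Fintype.card_prod, Fintype.card_prod, Fintype.card_fun, Fintype.card_fin,
          Fintype.card_fin]
        push_cast
        ring
      rw [h4]
      exact mul_one_div_cancel (by positivity)
    · have h3 : ∀ x : W L R, ker j e i z x = (if rel i j e x z then 1 else 0) / cnt L R i j e := by
        intro x
        unfold ker
        rw [if_neg hij]
      rw [sum_congr rfl (fun x _ => h3 x), ← sum_div, sum_boole,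
        hC k L R hL (by omega) i j e z hij]
      exact div_self (cnt_pos hL hR i j e).ne'

end Pool.Agent.H33.EP.KER
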