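import Pool.Agent.H64.EP.Targets

/-!
# Board ep_modules (MP_e01ba1_co), module `TAIL`
-/

set_option autoImplicit false

open Finset
open scoped Classical

namespace Pool.Agent.H33.EP.TAIL

open Pool.Agent.H64.EP

theorem exp_neg_one_le : Real.exp (-1) ≤ 1 / 2 := by
  rw [Real.exp_neg, ← one_div]
  have h := Real.add_one_le_exp (1 : ℝ)
  exact one_div_le_one_div_of_le (by norm_num) (by linarith)

theorem pf_TAIL : T_TAIL := by
  intro ι α _ _ _ r K c Γ X hK hHI hc hX
  have hcard : 0 < (Fintype.card α : ℝ) := by exact_mod_cast Fintype.card_pos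
  let φ : ι → α → ℝ := fun i x => if i ∈ Γ ∧ x ∈ X i then -1 else 0
  have hφ : ∀ i x, -1 ≤ φ i x ∧ φ i x ≤ 0 := by
    intro i x
    simp only [φ]
    split_ifs <;> norm_num
  have h := hHI φ hφ
  -- the exponent
  have hexp : ∀ z, ∑ i, ∑ x, K i z x * φ i x = -∑ i ∈ Γ, ∑ x ∈ X i, K i z x := by
    intro z
    rw [← sum_neg_distrib]
    have h1 : ∀ i, ∑ x, K i z x * φ i x = if i ∈ Γ then -∑ x ∈ X i, K i z x else 0 := by
      intro i
      by_cases hi : i ∈ Γ
      · rw [if_pos hi, ← sum_neg_distrib]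
        have h2 : ∀ x, K i z x * φ i x = if x ∈ X i then -K i z x else 0 := by
          intro x
          simp only [φ, hi, true_and]
          split_ifs <;> simp
        rw [sum_congr rfl (fun x _ => h2 x), sum_ite_mem, univ_inter]
      · rw [if_neg hi]
        apply sum_eq_zero
        intro x _
        simp [φ, hi]
    rw [sum_congr rfl (fun i _ => h1 i), sum_ite_mem, univ_inter]
  -- the right side
  have hR : (∏ i, avg (fun x => Real.exp (φ i x))) ^ r ≤
      Real.exp (-(r * c * (Γ.card : ℝ) / 2)) := by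
    have h1 : ∀ i, avg (fun x => Real.exp (φ i x)) ≤
        if i ∈ Γ then Real.exp (-(c / 2)) else 1 := by
      intro i
      unfold avg
      rw [div_le_iff₀ hcard]
      by_cases hi : i ∈ Γ
      · rw [if_pos hi]
        have h2 : ∀ x, Real.exp (φ i x) = 1 - (if x ∈ X i then 1 - Real.exp (-1) else 0) := by
          intro x
          simp only [φ, hi, true_and]
          split_ifs <;> simp
        rw [sum_congr rfl (fun x _ => h2 x), sum_sub_distrib, sum_ite_mem, univ_inter,
          sum_const, sum_const, nsmul_eq_mul, nsmul_eq_mul, card_univ, mul_one]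
        have h3 := hX i hi
        have h4 := exp_neg_one_le
        have h5 : 1 - c / 2 ≤ Real.exp (-(c / 2)) := by
          have := Real.add_one_le_exp (-(c / 2))
          linarith
        have h6 : ((X i).card : ℝ) * (1 - Real.exp (-1)) ≥ c * (Fintype.card α : ℝ) * (1 / 2) := by
          apply mul_le_mul h3 (by linarith) (by norm_num) (by positivity)
        calc (Fintype.card α : ℝ) - ((X i).card : ℝ) * (1 - Real.exp (-1))
            ≤ (1 - c / 2) * (Fintype.card α : ℝ) := by linarith
          _ ≤ Real.exp (-(c / 2)) * (Fintype.card α : ℝ) :=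
            mul_le_mul_of_nonneg_right h5 hcard.le
      · rw [if_neg hi]
        have h2 : ∀ x, Real.exp (φ i x) = 1 := by
          intro x
          simp [φ, hi]
        rw [sum_congr rfl (fun x _ => h2 x), sum_const, nsmul_eq_mul, card_univ, mul_one,
          one_mul]
    have h0 : ∀ i, 0 ≤ avg (fun x => Real.exp (φ i x)) := by
      intro i
      unfold avg
      exact div_nonneg (sum_nonneg (fun x _ => (Real.exp_pos _).le)) hcard.le
    have h2 : ∏ i, avg (fun x => Real.exp (φ i x)) ≤ Real.exp (-(c / 2)) ^ Γ.card := by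
      refine (prod_le_prod (fun i _ => h0 i) (fun i _ => h1 i)).trans (le_of_eq ?_)
      rw [prod_ite_mem, univ_inter, prod_const]
    calc (∏ i, avg (fun x => Real.exp (φ i x))) ^ r
        ≤ (Real.exp (-(c / 2)) ^ Γ.card) ^ r :=
          pow_le_pow_left₀ (prod_nonneg (fun i _ => h0 i)) h2 r
      _ = Real.exp (-(r * c * (Γ.card : ℝ) / 2)) := by
          rw [← Real.exp_nat_mul, ← Real.exp_nat_mul]
          congr 1
          ring
  -- the left side
  set Bad : Finset α := (univ : Finset α).filter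
    (fun z => ∀ i ∈ Γ, ∑ x ∈ X i, K i z x ≤ c / 4) with hBad
  have hL : (Bad.card : ℝ) * Real.exp (-(r * c * (Γ.card : ℝ) / 4)) ≤
      ∑ z, Real.exp (r * ∑ i, ∑ x, K i z x * φ i x) := by
    rw [← nsmul_eq_mul, ← sum_const]
    refine (sum_le_sum ?_).trans (sum_le_sum_of_subset_of_nonneg (subset_univ Bad)
      (fun z _ _ => (Real.exp_pos _).le))
    intro z hz
    rw [hBad, mem_filter] at hz
    apply Real.exp_le_exp.2
    rw [hexp]
    have h1 : ∑ i ∈ Γ, ∑ x ∈ X i, K i z x ≤ Γ.card * (c / 4) := by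
      calc ∑ i ∈ Γ, ∑ x ∈ X i, K i z x ≤ ∑ i ∈ Γ, c / 4 := sum_le_sum (fun i hi => hz.2 i hi)
        _ = Γ.card * (c / 4) := by rw [sum_const, nsmul_eq_mul]
    have h2 : (0 : ℝ) ≤ r := Nat.cast_nonneg r
    have h3 := mul_le_mul_of_nonneg_left h1 h2
    linarith
  unfold avg at h
  rw [div_le_iff₀ hcard] at h
  have h1 : (Bad.card : ℝ) * Real.exp (-(r * c * (Γ.card : ℝ) / 4)) ≤
      Real.exp (-(r * c * (Γ.card : ℝ) / 2)) * (Fintype.card α : ℝ) :=
    hL.trans (h.trans (mul_le_mul_of_nonneg_right hR hcard.le))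
  have h2 : Real.exp (-(r * c * (Γ.card : ℝ) / 2)) =
      Real.exp (-(r * c * (Γ.card : ℝ) / 4)) * Real.exp (-(r * c * (Γ.card : ℝ) / 4)) := by
    rw [← Real.exp_add]
    congr 1
    ring
  rw [h2] at h1
  have h3 : Real.exp (-(r * c * (Γ.card : ℝ) / 4)) * (Bad.card : ℝ) ≤
      Real.exp (-(r * c * (Γ.card : ℝ) / 4)) *
        (Real.exp (-(r * c * (Γ.card : ℝ) / 4)) * (Fintype.card α : ℝ)) := by
    linarith
  exact le_of_mul_le_mul_left h3 (Real.exp_pos _)

end Pool.Agent.H33.EP.TAIL
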